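import Pool.Agent.Helper64.DT.Stmts

/-! Diamond-free circle graphs (MP_866009_co): linking two cliques through a component. -/

set_option autoImplicit false

namespace Pool.Agent.Helper64.DT

open Pool.Agent.Helper64.CT
open Pool.Agent.Helper64.HG (Ovl Model Circ IC HellyCircle ChordModel)

theorem lnk_far {V : Type} {G : SimpleGraph V} (h : DF G) {x w a c a' : V}
    (ha' : a' ∈ Att G x w) (haa : a = a' ∨ G.Adj a a') (hxa : G.Adj x a) (hxc : G.Adj x c)
    (hca : c ≠ a) (hnca : ¬ G.Adj c a) (hcw : c ∉ Att G x w) : a' ∈ Far G c := by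
  refine ⟨fun e => hcw (e ▸ ha'), ?_⟩
  intro hadj
  rcases haa with e | e
  · exact hnca (e ▸ hadj)
  · rcases DF.tr h hxa ha'.1 hxc e hadj.symm with e1 | e1
    · exact hca e1.symm
    · exact hnca e1.symm

theorem lnk_comp {V : Type} {G : SimpleGraph V} {x w c u : V} (hxc : G.Adj x c)
    (hcw : c ∉ Att G x w) (hu : Comp G x w u) : u ∈ Far G c := by
  refine ⟨?_, fun hadj => hcw ⟨hxc, u, hu, hadj⟩⟩
  intro e
  exact hu.right.2 (e ▸ hxc)

theorem lnk_path {V : Type} {G : SimpleGraph V} {x w c u : V} (hxc : G.Adj x c)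
    (hcw : c ∉ Att G x w) (hu : Comp G x w u) : Comp G c w u := by
  refine Comp.ind hu (fun v => Comp G c w v)
    (Comp.refl (lnk_comp hxc hcw (Comp.refl hu.left))) ?_
  intro z v hz hP hv hadj
  exact hP.step (lnk_comp hxc hcw (hz.step hv hadj)) hadj

theorem lnk_one {V : Type} {G : SimpleGraph V} (h : DF G) {x w a c a' : V}
    (ha' : a' ∈ Att G x w) (haa : a = a' ∨ G.Adj a a') (hxa : G.Adj x a) (hxc : G.Adj x c)
    (hca : c ≠ a) (hnca : ¬ G.Adj c a) (hcw : c ∉ Att G x w) : Comp G c w a := by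
  have hfa' := lnk_far h ha' haa hxa hxc hca hnca hcw
  obtain ⟨hxa', u, hu, hadj⟩ := ha'
  have h1 : Comp G c w a' := (lnk_path hxc hcw hu).step hfa' hadj.symm
  rcases haa with e | e
  · rw [e]; exact h1
  · exact h1.step ⟨fun e => hca e.symm, hnca⟩ e.symm

theorem st_LNK : ST_LNK := by
  intro V G h x w a b c a' b' _ ha' hb' haa hbb hxa hxb hxc hca hcb hnca hncb hcw
  exact (lnk_one h ha' haa hxa hxc hca hnca hcw).symm.trans
    (lnk_one h hb' hbb hxb hxc hcb hncb hcw)

end Pool.Agent.Helper64.DT
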