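import Pool.Agent.Helper54.DT.StmtsH

/-! The reduction of sums of square roots to one cubic inequality. -/

namespace Pool.Agent.Helper54.DT

open Finset Pool.Agent.Helper54.ETR Pool.Agent.Helper54.Poly Pool.Agent.Helper54.DI

/-! ### decoding -/

/-- states: a digit is expected; current digits reversed; finished numbers, digits reversed -/
abbrev ssr_S := Bool × (List Bool × List (List Bool))

def ssr_step (s : ssr_S) (c : Bool) : ssr_S :=
  if s.1 then (false, (c :: s.2.1, s.2.2))
  else if c then (true, s.2) else (false, ([], s.2.1 :: s.2.2))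

def ssr_run (u : List Bool) : ssr_S := u.foldl ssr_step (false, ([], []))

def ssr_two (d : List Bool) : List Bool := d.flatMap fun b => [true, b]

def ssr_enc (L : List (List Bool)) : List Bool := L.flatMap fun d => ssr_two d ++ [false]

theorem ssr_natsCode (l : List ℕ) : natsCode l = ssr_enc (l.map Nat.bits) := by
  unfold natsCode ssr_enc ssr_two
  rw [List.flatMap_map]

/-- the string read so far -/
def ssr_read (s : ssr_S) : List Bool :=
  ssr_enc ((s.2.2.map List.reverse).reverse) ++ (ssr_two s.2.1.reverse ++
    if s.1 then [true] else [])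

theorem ssr_read_step (s : ssr_S) (c : Bool) : ssr_read (ssr_step s c) = ssr_read s ++ [c] := by
  obtain ⟨e, cur, D⟩ := s
  cases e with
  | true =>
    simp [ssr_read, ssr_step, ssr_two, List.flatMap_append]
  | false =>
    cases c with
    | true => simp [ssr_read, ssr_step]
    | false => simp [ssr_read, ssr_step, ssr_enc, ssr_two, List.flatMap_append]

theorem ssr_read_foldl (u : List Bool) : ∀ s : ssr_S,
    ssr_read (u.foldl ssr_step s) = ssr_read s ++ u := by
  induction u with
  | nil => intro s; simp
  | cons c u ih =>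
    intro s
    rw [List.foldl_cons, ih, ssr_read_step]
    simp

theorem ssr_read_run (u : List Bool) : ssr_read (ssr_run u) = u := by
  unfold ssr_run
  rw [ssr_read_foldl]
  simp [ssr_read, ssr_enc, ssr_two]

theorem ssr_foldl_two (d : List Bool) : ∀ (cur : List Bool) (D : List (List Bool)),
    (ssr_two d).foldl ssr_step (false, (cur, D)) = (false, (d.reverse ++ cur, D)) := by
  induction d with
  | nil => intro cur D; simp [ssr_two]
  | cons b d ih =>
    intro cur D
    have e : ssr_two (b :: d) = true :: b :: ssr_two d := by simp [ssr_two]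
    rw [e, List.foldl_cons, List.foldl_cons]
    have e1 : ssr_step (ssr_step (false, (cur, D)) true) b = (false, (b :: cur, D)) := by
      simp [ssr_step]
    rw [e1, ih]
    simp

theorem ssr_foldl_enc (L : List (List Bool)) : ∀ D : List (List Bool),
    (ssr_enc L).foldl ssr_step (false, ([], D))
      = (false, ([], (L.map List.reverse).reverse ++ D)) := by
  induction L with
  | nil => intro D; simp [ssr_enc]
  | cons d L ih =>
    intro D
    have e : ssr_enc (d :: L) = ssr_two d ++ (false :: ssr_enc L) := by simp [ssr_enc]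
    rw [e, List.foldl_append, ssr_foldl_two, List.foldl_cons]
    have e1 : ssr_step (false, (d.reverse ++ [], D)) false = (false, ([], d.reverse :: D)) := by
      simp [ssr_step]
    rw [e1, ih]
    simp

theorem ssr_run_enc (L : List (List Bool)) :
    ssr_run (ssr_enc L) = (false, ([], (L.map List.reverse).reverse)) := by
  unfold ssr_run
  rw [ssr_foldl_enc, List.append_nil]

/-- the first digit is not zero -/
def ssr_can (r : List Bool) : Bool :=
  match r with
  | [] => true
  | b :: _ => b

def ssr_acc (s : ssr_S) : Bool :=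
  !s.1 && (s.2.1.isEmpty && (!s.2.2.isEmpty && s.2.2.all fun r => ssr_can r))

/-- the list of numbers -/
def ssr_L (s : ssr_S) : List (List Bool) := (s.2.2.map List.reverse).reverse

/-! ### canonical digits -/

theorem ssr_bvl (l : List Bool) : bvl l = bval l := by
  induction l with
  | nil => rfl
  | cons b l ih => cases b <;> simp [bvl, bval, ih]

theorem ssr_norm (d : List Bool) : Poly.bnorm d = d ↔ d.getLast? ≠ some false := by
  induction d with
  | nil => simp [Poly.bnorm]
  | cons b t ih =>
    have h1 : Poly.bnorm (b :: t) = if (Poly.bnorm t).isEmpty && !b then [] else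
      b :: Poly.bnorm t := rfl
    rw [h1]
    cases t with
    | nil =>
      cases b with
      | true => simp [Poly.bnorm]
      | false => simp [Poly.bnorm]
    | cons c t =>
      rw [List.getLast?_cons_cons, ← ih]
      constructor
      · intro h
        by_cases h2 : ((Poly.bnorm (c :: t)).isEmpty && !b) = true
        · rw [if_pos h2] at h
          exact absurd h (by simp)
        · rw [if_neg h2] at h
          exact (List.cons.inj h).2
      · intro h
        rw [h]
        simp

theorem ssr_can_iff (r : List Bool) : ssr_can r = true ↔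
    r.reverse = Nat.bits (bvl r.reverse) := by
  rw [ssr_bvl, ← bnorm_eq]
  have h := ssr_norm r.reverse
  rw [List.getLast?_reverse] at h
  constructor
  · intro h1
    refine (h.2 ?_).symm
    cases r with
    | nil => simp
    | cons b r =>
      have h2 : b = true := h1
      simp [h2]
  · intro h1
    have h2 := h.1 h1.symm
    cases r with
    | nil => rfl
    | cons b r =>
      cases b with
      | true => rfl
      | false => exact absurd rfl h2

theorem ssr_bits (a : ℕ) : bvl (Nat.bits a) = a := by rw [ssr_bvl, bval_bits]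

theorem ssr_acc_enc (l : List ℕ) (hl : l ≠ []) :
    ssr_acc (ssr_run (ssr_enc (l.map Nat.bits))) = true ∧
    ssr_L (ssr_run (ssr_enc (l.map Nat.bits))) = l.map Nat.bits := by
  rw [ssr_run_enc]
  constructor
  · unfold ssr_acc
    simp only [Bool.not_false, List.isEmpty_nil, Bool.true_and, Bool.and_eq_true,
      Bool.not_eq_true', List.all_eq_true]
    constructor
    · cases l with
      | nil => exact absurd rfl hl
      | cons a l => simp
    · intro r hr
      rw [List.mem_reverse, List.mem_map] at hr
      obtain ⟨d, hd, rfl⟩ := hr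
      obtain ⟨a, -, rfl⟩ := List.mem_map.1 hd
      rw [ssr_can_iff, List.reverse_reverse, ssr_bits]
  · unfold ssr_L
    simp only [List.map_reverse, List.reverse_reverse, List.map_map]
    exact List.map_congr_left fun a _ => by simp

theorem ssr_acc_run (u : List Bool) (h : ssr_acc (ssr_run u) = true) :
    ssr_L (ssr_run u) ≠ [] ∧ u = natsCode ((ssr_L (ssr_run u)).map bvl) := by
  have hu := ssr_read_run u
  revert h hu
  generalize ssr_run u = s
  obtain ⟨e, cur, D⟩ := s
  intro h hu
  unfold ssr_acc at h
  simp only [Bool.and_eq_true, Bool.not_eq_true', List.isEmpty_iff, List.all_eq_true] at h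
  obtain ⟨h1, h2, h3, h4⟩ := h
  subst h1 h2
  have hL : ssr_L (false, ([], D)) = (D.map List.reverse).reverse := rfl
  rw [hL]
  constructor
  · intro h5
    rw [List.reverse_eq_nil_iff, List.map_eq_nil_iff] at h5
    rw [h5] at h3
    exact absurd h3 (by simp)
  · rw [ssr_natsCode, List.map_map]
    have e : (D.map List.reverse).reverse.map (Nat.bits ∘ bvl)
        = (D.map List.reverse).reverse := by
      conv_rhs => rw [← List.map_id (D.map List.reverse).reverse]
      refine List.map_congr_left fun d hd => ?_
      rw [List.mem_reverse, List.mem_map] at hd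
      obtain ⟨r, hr, rfl⟩ := hd
      exact ((ssr_can_iff r).1 (h4 r hr)).symm
    rw [e]
    rw [← hu]
    simp [ssr_read, ssr_two]

/-! ### symbols -/

theorem ssr_nbT (l : List Bool) : (nbT l).toks = l.foldr (fun b s =>
    Tok.add :: (Tok.mul :: ([Tok.add, Tok.one, Tok.one] ++ s) ++
      if b then [Tok.one] else [Tok.zero])) [Tok.zero] := by
  induction l with
  | nil => rfl
  | cons b l ih =>
    rw [List.foldr_cons, ← ih]
    cases b <;> rfl

theorem ssr_sumO (l : List Term) :
    (sumO oT l).toks = (l.flatMap fun t => Tok.add :: t.toks) ++ [Tok.zero] := by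
  induction l with
  | nil => rfl
  | cons t l ih =>
    have e : (sumO oT (t :: l)).toks = Tok.add :: (t.toks ++ (sumO oT l).toks) := rfl
    rw [e, ih]
    simp

/-- symbols of `ssrT` -/
def ssr_K (c : List Tok) (b : List Tok) (i : ℕ) : List Tok :=
  Tok.sub :: ((Tok.mul :: (c ++ (Tok.mul :: (b ++ vt i)))) ++
    (Tok.mul :: ((Tok.mul :: (b ++ vt i)) ++ (Tok.mul :: ((Tok.mul :: (b ++ vt i)) ++ vt i)))))

theorem ssr_T (b : List Bool) (i : ℕ) :
    (ssrT b i).toks = ssr_K (nuO oT 3).toks (nbT b).toks i := rfl

theorem ssr_foldr (p : Form) (l : List ℕ) :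
    (l.foldr (fun i φ => Form.and (Form.ge (Term.var i) Term.zero) φ) p).toks
      = (l.flatMap fun i => Tok.and :: (Tok.ge :: (vt i ++ [Tok.zero]))) ++ p.toks := by
  induction l with
  | nil => rfl
  | cons i l ih =>
    have e : ((i :: l).foldr (fun i φ => Form.and (Form.ge (Term.var i) Term.zero) φ) p).toks
        = Tok.and :: ((Tok.ge :: (vt i ++ [Tok.zero])) ++
          (l.foldr (fun i φ => Form.and (Form.ge (Term.var i) Term.zero) φ) p).toks) := rfl
    rw [e, ih]
    simp

theorem ssr_F (bs : List (List Bool)) (B : List Bool) : (ssrF bs B).toks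
    = ((List.range bs.length).flatMap fun i => Tok.and :: (Tok.ge :: (vt i ++ [Tok.zero]))) ++
      (Tok.ge :: ((((List.range bs.length).flatMap fun i =>
        Tok.add :: ssr_K (nuO oT 3).toks (nbT (bs.getD i [])).toks i) ++ [Tok.zero]) ++
        (Tok.mul :: ((nuO oT 2).toks ++ (nbT B).toks)))) := by
  unfold ssrF
  rw [ssr_foldr]
  congr 1
  have e : (Form.ge (sumO oT ((List.range bs.length).map fun i => ssrT (bs.getD i []) i))
      (Term.mul (nuO oT 2) (nbT B))).toks = Tok.ge ::
      ((sumO oT ((List.range bs.length).map fun i => ssrT (bs.getD i []) i)).toks ++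
        (Tok.mul :: ((nuO oT 2).toks ++ (nbT B).toks))) := rfl
  rw [e, ssr_sumO, List.flatMap_map]
  rfl

/-! ### polynomial time -/

section pts

variable {α : Type} [TEnc α]

theorem ssr_PTnbT {l : α → List Bool} (hl : PT l) : PT (fun a => (nbT (l a)).toks) := by
  have h1 : PT (fun y : α × (List Tok × Bool) =>
      Tok.add :: (Tok.mul :: ([Tok.add, Tok.one, Tok.one] ++ y.2.1) ++
        if y.2.2 then [Tok.one] else [Tok.zero])) :=
    PT.lcons (PT.const _) (PT.append (PT.lcons (PT.const _) (PT.append (PT.const _)
      PT.id.snd.fst)) (PT.ite PT.id.snd.snd (PT.const _) (PT.const _)))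
  have h2 := PT.foldl_add h1 (l := fun a => (l a).reverse) (x := fun _ => [Tok.zero]) hl.reverse
    (PT.const _) 200 (by
      intro b s c _
      simp only [Polynomial.eval_ofNat]
      have e1 := sz_tok Tok.add
      have e2 := sz_tok Tok.mul
      have e3 := sz_toks [Tok.add, Tok.one, Tok.one]
      have e4 : sz (if c then [Tok.one] else [Tok.zero]) ≤ 19 := by
        cases c
        · exact sz_toks [Tok.zero]
        · exact sz_toks [Tok.one]
      have e5 := sz_append [Tok.add, Tok.one, Tok.one] s
      have e6 := sz_append (Tok.mul :: ([Tok.add, Tok.one, Tok.one] ++ s))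
        (if c then [Tok.one] else [Tok.zero])
      rw [sz_cons] at e6
      rw [sz_cons]
      simp only [List.length_cons, List.length_nil] at e3
      omega)
  refine h2.congr fun a => ?_
  rw [ssr_nbT, List.foldl_reverse]

theorem ssr_PTF {bs : α → List (List Bool)} {B : α → List Bool} (hb : PT bs) (hB : PT B) :
    PT (fun a => (ssrF (bs a) (B a)).toks) := by
  have hr : PT (fun a => List.range (bs a).length) := PT.range (PT.length hb)
  have h1 : PT (fun z : α × ℕ => Tok.and :: (Tok.ge :: (vt z.2 ++ [Tok.zero]))) :=
    PT.lcons (PT.const _) (PTqb Tok.ge (PTvt PT.id.snd) (PT.const _))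
  have hn : PT (fun z : α × ℕ => (nbT ((bs z.1).getD z.2 [])).toks) :=
    ssr_PTnbT (PT.getD PT.id.snd (hb.comp PT.id.fst) (PT.const []))
  have hm : PT (fun z : α × ℕ => Tok.mul :: ((nbT ((bs z.1).getD z.2 [])).toks ++ vt z.2)) :=
    PTqb Tok.mul hn (PTvt PT.id.snd)
  have hk : PT (fun z : α × ℕ =>
      ssr_K (nuO oT 3).toks (nbT ((bs z.1).getD z.2 [])).toks z.2) :=
    PTqb Tok.sub (PTqb Tok.mul (PT.const _) hm) (PTqb Tok.mul hm (PTqb Tok.mul hm
      (PTvt PT.id.snd)))
  have h2 : PT (fun z : α × ℕ =>
      Tok.add :: ssr_K (nuO oT 3).toks (nbT ((bs z.1).getD z.2 [])).toks z.2) :=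
    PT.lcons (PT.const _) hk
  have h3 := PT.append (PT.flatMap h1 hr) (PT.lcons (PT.const Tok.ge) (PT.append
    (PT.append (PT.flatMap h2 hr) (PT.const [Tok.zero]))
    (PTqb Tok.mul (PT.const (nuO oT 2).toks) (ssr_PTnbT hB))))
  refine h3.congr fun a => ?_
  rw [ssr_F]

theorem ssr_PTrun {u : α → List Bool} (hu : PT u) : PT (fun a => ssr_run (u a)) := by
  have h1 : PT (fun y : α × (ssr_S × Bool) => ssr_step y.2.1 y.2.2) := by
    have hs : PT (fun y : α × (ssr_S × Bool) => y.2.1) := PT.id.snd.fst
    have hc : PT (fun y : α × (ssr_S × Bool) => y.2.2) := PT.id.snd.snd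
    unfold ssr_step
    exact PT.ite hs.fst ((PT.const false).pair ((PT.lcons hc hs.snd.fst).pair hs.snd.snd))
      (PT.ite hc ((PT.const true).pair hs.snd) ((PT.const false).pair
        ((PT.const []).pair (PT.lcons hs.snd.fst hs.snd.snd))))
  exact PT.foldl_add h1 (l := u) (x := fun _ => (false, ([], []))) hu (PT.const _) 20 (by
    intro b s c _
    obtain ⟨e, cur, D⟩ := s
    simp only [Polynomial.eval_ofNat, ssr_step]
    have h2 := sz_bool c
    cases e with
    | true =>
      simp only [if_true, sz_pair, sz_cons, sz_true, sz_false]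
      omega
    | false =>
      cases c with
      | true =>
        simp only [Bool.false_eq_true, if_false, if_true, sz_pair, sz_true, sz_false]
        omega
      | false =>
        simp only [Bool.false_eq_true, if_false, sz_pair, sz_false, sz_nil, sz_cons]
        omega)

theorem ssr_PTacc {s : α → ssr_S} (hs : PT s) : PT (fun a => ssr_acc (s a)) := by
  have h1 : PT (fun z : α × List Bool => ssr_can z.2) := by
    refine (PT.listCase (l := fun z : α × List Bool => z.2) PT.id.snd (PT.const true)
      (g := fun z => z.2.1) PT.id.snd.fst).congr fun z => ?_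
    rcases z.2 with _ | ⟨b, t⟩ <;> rfl
  exact PT.and hs.fst.not (PT.and (PT.isEmpty hs.snd.fst) (PT.and (PT.isEmpty hs.snd.snd).not
    (PT.all h1 hs.snd.snd)))

theorem ssr_PTL {s : α → ssr_S} (hs : PT s) : PT (fun a => ssr_L (s a)) := by
  have h1 : PT (fun z : α × List Bool => z.2.reverse) := PT.reverse PT.id.snd
  exact PT.reverse (PT.map h1 hs.snd.snd)

end pts

/-- the reduction -/
def ssr_red (u : List Bool) : List Bool :=
  if ssr_acc (ssr_run u) then
    (ssrF (ssr_L (ssr_run u)).tail ((ssr_L (ssr_run u)).getD 0 [])).toks.flatMap Tok.bits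
  else (Form.lt Term.zero Term.zero).code

theorem ssr_polytime :
    Nonempty (Turing.TM2ComputableInPolyTime (fun l : List Bool => l) (fun l => l) ssr_red) := by
  have hr : PT (fun u : List Bool => ssr_run u) := ssr_PTrun PT.id
  have hL := ssr_PTL hr
  have h : PT (fun u : List Bool => ssr_red u) :=
    PT.ite (ssr_PTacc hr) (PTbits (ssr_PTF (PT.tail hL) (PT.getD (PT.const 0) hL (PT.const []))))
      (PT.const _)
  exact polytime_list (fun l : List Bool => l) ssr_red (fun l => (ssr_red l).reverse)
    (PT.reverse h) fun _ => rfl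

theorem st_SSR (hM : ST_SSRM) : ST_SSR := by
  refine ⟨ssr_red, ssr_polytime, fun u => ?_⟩
  constructor
  · rintro ⟨B, l, rfl, hB⟩
    have h1 := ssr_acc_enc (B :: l) (by simp)
    rw [← ssr_natsCode] at h1
    have h2 := hM (l.map Nat.bits) (Nat.bits B)
    refine ⟨ssrF (l.map Nat.bits) (Nat.bits B), ?_, ⟨∅, by simp, h2.2⟩, h2.1.1 ?_⟩
    · unfold ssr_red
      rw [if_pos h1.1, h1.2]
      rfl
    · rw [ssr_bits, List.map_map]
      have e : (l.map ((fun b => √(bvl b : ℝ)) ∘ Nat.bits)) = l.map fun a : ℕ => √(a : ℝ) :=
        List.map_congr_left fun a _ => by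
          simp only [Function.comp_apply, ssr_bits]
      rw [e]
      exact hB
  · rintro ⟨φ, hφ, -, x, hx⟩
    by_cases h : ssr_acc (ssr_run u) = true
    · unfold ssr_red at hφ
      rw [if_pos h] at hφ
      obtain ⟨hne, hu⟩ := ssr_acc_run u h
      revert hφ hne hu
      generalize ssr_L (ssr_run u) = L
      intro hφ hne hu
      cases L with
      | nil => exact absurd rfl hne
      | cons B bs =>
        have e : (ssrF bs B) = φ := code_injective hφ
        have h2 := (hM bs B).1.2 ⟨x, by rw [e]; exact hx⟩
        refine ⟨bvl B, bs.map bvl, hu, ?_⟩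
        rw [List.map_map]
        exact h2
    · unfold ssr_red at hφ
      rw [if_neg h] at hφ
      have e : Form.lt Term.zero Term.zero = φ := code_injective hφ
      rw [← e] at hx
      exact absurd hx (lt_irrefl (0 : ℝ))

end Pool.Agent.Helper54.DT
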